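import Pool.Agent.Q123.PolyPow

/-!
# Generation degrees of the homological shift algebras of polymatroidal ideals

Definitions used:
* `koszulD` (file `Pool.Agent.H677R3.RegKoszul`) is the Koszul differential of the variables, where
  a Koszul chain assigns to every finite set `T` of variables the coefficient of `e_T`, and `ind T`
  is the indicator vector of `T`;
* `TorNeAt J i a` (file `Pool.Agent.Q123.MTor`): the Koszul homology `H_i(x; J) = Tor_i(J, K)` is
  nonzero in multidegree `a`;
* `homShift i J` (same file): the ideal generated by the monomials `x^a` with `TorNeAt J i a`;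
* `IsPolymatroidal I` (file `Pool.Agent.Q123.PolyPow`): `I` is generated by the monomials with
  exponents in a set `B`, all of one degree, with the exchange property.
-/

set_option autoImplicit false

namespace Pool.Agent.Results.MP_8dad47_al.GenerationDegrees

open Pool.Agent.Q123

/-- Let `I` be a polymatroidal ideal of `K[x_1,…,x_n]` and `i ≥ 0`. Then
`HS_i(I^(k+1)) = I · HS_i(I^k)` for every `k ≥ i`, and `I^j · HS_i(I^k) ⊆ HS_i(I^(k+j))` for all
`j` and `k`. -/
theorem result (K : Type*) [Field K] (n : ℕ) (I : Ideal (MvPolynomial (Fin n) K))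
    (hI : IsPolymatroidal I) (i : ℕ) :
    (∀ k : ℕ, i ≤ k → homShift i (I ^ (k + 1)) = I * homShift i (I ^ k)) ∧
    (∀ j k : ℕ, I ^ j * homShift i (I ^ k) ≤ homShift i (I ^ (k + j))) := by
  refine ⟨fun k hk => homShift_pow_succ hI hk, fun j k => ?_⟩
  induction j with
  | zero => rw [pow_zero, one_mul, Nat.add_zero]
  | succ j ih =>
    rw [pow_succ', mul_assoc]
    exact (Ideal.mul_mono_right ih).trans (mul_homShift_le hI i (k + j))

end Pool.Agent.Results.MP_8dad47_al.GenerationDegrees
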